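import Pool.Agent.Helper3.HT.TT
import Pool.Agent.Helper3.TD.Cls

/-! Counting the odd integers. -/

namespace Pool.Agent.Helper32.HT

open Pool.Agent.Helper3.ND Pool.Agent.Helper3.TD Pool.Agent.Helper3.HT Filter Topology

/-- the number of negative odd integers at least `-x` with the property `P` -/
noncomputable def cP (P : ℤ → Prop) (x : ℝ) : ℕ := {N : ℤ | N < 0 ∧ Odd N ∧ -x ≤ (N : ℝ) ∧ P N}.ncard

theorem cP_fin (P : ℤ → Prop) (x : ℝ) : {N : ℤ | N < 0 ∧ Odd N ∧ -x ≤ (N : ℝ) ∧ P N}.Finite := by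
  apply Set.Finite.subset (Set.finite_Ico (-⌈x⌉) 0)
  rintro N ⟨h1, _, h2, _⟩
  rw [Set.mem_Ico]
  refine ⟨?_, h1⟩
  have h3 := Int.le_ceil x
  have h4 : (-(⌈x⌉ : ℤ) : ℝ) ≤ (N : ℝ) := by linarith
  exact_mod_cast h4

theorem cP_mono {P Q : ℤ → Prop} {x y : ℝ} (h : ∀ N : ℤ, N < 0 → Odd N → -x ≤ (N : ℝ) → P N → -y ≤ (N : ℝ) ∧ Q N) :
    cP P x ≤ cP Q y := by
  unfold cP
  apply Set.ncard_le_ncard _ (cP_fin Q y)
  rintro N ⟨h1, h2, h3, h4⟩
  obtain ⟨h5, h6⟩ := h N h1 h2 h3 h4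
  exact ⟨h1, h2, h5, h6⟩

theorem cP_card (P : ℤ → Prop) (x : ℝ) : Nat.card {N : ℤ // N < 0 ∧ Odd N ∧ -x ≤ (N : ℝ) ∧ P N} = cP P x := rfl

theorem cP_small (P : ℤ → Prop) {x : ℝ} (hx : 0 ≤ x) : (cP P x : ℝ) ≤ x + 1 := by
  have h1 : {N : ℤ | N < 0 ∧ Odd N ∧ -x ≤ (N : ℝ) ∧ P N} ⊆ ((Finset.Ico (-(⌊x⌋₊ : ℤ)) 0 : Finset ℤ) : Set ℤ) := by
    rintro N ⟨a1, _, a2, _⟩
    rw [Finset.mem_coe, Finset.mem_Ico]
    refine ⟨?_, a1⟩
    have h5 : (((-N).toNat : ℕ) : ℝ) ≤ x := by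
      have : (((-N).toNat : ℕ) : ℤ) = -N := Int.toNat_of_nonneg (by omega)
      have h6 : (((-N).toNat : ℕ) : ℝ) = -(N : ℝ) := by exact_mod_cast congrArg (Int.cast : ℤ → ℝ) this
      rw [h6]; linarith
    have h6 := Nat.le_floor h5
    omega
  have h2 := Set.ncard_le_ncard h1 (Finset.finite_toSet _)
  rw [Set.ncard_coe_finset, Int.card_Ico] at h2
  have h3 : ((0 - -(⌊x⌋₊ : ℤ)).toNat) = ⌊x⌋₊ := by omega
  rw [h3] at h2
  have h4 : (cP P x : ℝ) ≤ ⌊x⌋₊ := by exact_mod_cast h2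
  have := Nat.floor_le hx
  linarith

theorem odd_sum (Ψ Ψ1 : ℤ → ℝ) (h : ∀ m, Ψ (2 * m) = Ψ1 m) (X : ℕ) :
    ∑ n ∈ (Finset.Icc (-(X : ℤ)) X).filter (fun n => Odd n), Ψ n = Nc Ψ X - Nc Ψ1 (X / 2) := by
  classical
  have h1 : Nc Ψ X = ∑ n ∈ (Finset.Icc (-(X : ℤ)) X).filter (fun n => Odd n), Ψ n +
      ∑ n ∈ (Finset.Icc (-(X : ℤ)) X).filter (fun n => ¬ Odd n), Ψ n := by
    unfold Nc
    exact (Finset.sum_filter_add_sum_filter_not _ _ _).symm
  have h2 : ∑ n ∈ (Finset.Icc (-(X : ℤ)) X).filter (fun n => ¬ Odd n), Ψ n = Nc Ψ1 (X / 2) := by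
    unfold Nc
    symm
    apply Finset.sum_nbij' (fun n => 2 * n) (fun n => n / 2)
    · intro n hn
      rw [Finset.mem_Icc] at hn
      rw [Finset.mem_filter, Finset.mem_Icc, Int.not_odd_iff_even]
      refine ⟨by omega, n, by ring⟩
    · intro n hn
      rw [Finset.mem_filter, Finset.mem_Icc, Int.not_odd_iff_even] at hn
      obtain ⟨hn1, k, hk⟩ := hn
      rw [Finset.mem_Icc]
      omega
    · intro n _
      omega
    · intro n hn
      rw [Finset.mem_filter, Finset.mem_Icc, Int.not_odd_iff_even] at hn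
      obtain ⟨hn1, k, hk⟩ := hn
      omega
    · intro n _
      exact (h n).symm
  rw [h1, h2]; ring

open Classical in
/-- the odd sum of an indicator function that vanishes at the non-negative integers -/
theorem odd_card (P : ℤ → Prop) (hP : ∀ n : ℤ, 0 ≤ n → ¬ P n) (X : ℕ) :
    ∑ n ∈ (Finset.Icc (-(X : ℤ)) X).filter (fun n => Odd n), (if P n then (1 : ℝ) else 0) = cP P (X : ℝ) := by
  rw [← Finset.sum_filter, Finset.sum_const, nsmul_eq_mul, mul_one]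
  unfold cP
  congr 1
  rw [← Set.ncard_coe_finset]
  congr 1
  ext N
  simp only [Finset.coe_filter, Finset.mem_filter, Finset.mem_Icc, Set.mem_ofPred_eq]
  constructor
  · rintro ⟨⟨⟨a1, a2⟩, a3⟩, a4⟩
    refine ⟨?_, a3, by exact_mod_cast a1, a4⟩
    by_contra hc
    exact hP N (not_lt.mp hc) a4
  · rintro ⟨a1, a2, a3, a4⟩
    have h5 : -(X : ℤ) ≤ N := by exact_mod_cast a3
    exact ⟨⟨⟨h5, by omega⟩, a2⟩, a4⟩

theorem T_two (m : ℤ) : T (2 * m) = m := by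
  have h : (2 * m) % 2 = 0 := by omega
  have := T_even h
  linarith

theorem T_nonneg {n : ℤ} (h : 0 ≤ n) : 0 ≤ T n := by
  rcases par_cases n with h1 | h1
  · have := T_even h1; omega
  · have := T_odd h1; omega

theorem T_iter_nonneg {n : ℤ} (h : 0 ≤ n) (i : ℕ) : 0 ≤ T^[i] n := by
  induction i with
  | zero => exact h
  | succ i ih => rw [Function.iterate_succ_apply']; exact T_nonneg ih

theorem FH_two {a : ℤ} (ha : Odd a) (j : ℕ) (m : ℤ) : FH a (j + 1) (2 * m) = FH a j m := by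
  classical
  unfold FH
  refine if_congr ⟨?_, ?_⟩ rfl rfl
  · rintro ⟨i, hi, h⟩
    rcases Nat.eq_zero_or_pos i with h0 | h0
    · exfalso
      rw [h0, Function.iterate_zero, id_eq] at h
      apply (Int.not_even_iff_odd.mpr ha)
      rw [← h]; exact ⟨m, by ring⟩
    · obtain ⟨i', rfl⟩ := Nat.exists_eq_succ_of_ne_zero h0.ne'
      rw [Nat.succ_eq_add_one, Function.iterate_succ_apply, T_two] at h
      exact ⟨i', by omega, h⟩
  · rintro ⟨i, hi, h⟩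
    refine ⟨i + 1, by omega, ?_⟩
    rw [Function.iterate_succ_apply, T_two]; exact h

theorem FI_two {a : ℤ} (ha : Odd a) (m : ℤ) : FI a (2 * m) = FI a m := by
  classical
  unfold FI
  refine if_congr ⟨?_, ?_⟩ rfl rfl
  · rintro ⟨i, h⟩
    rcases Nat.eq_zero_or_pos i with h0 | h0
    · exfalso
      rw [h0, Function.iterate_zero, id_eq] at h
      apply (Int.not_even_iff_odd.mpr ha)
      rw [← h]; exact ⟨m, by ring⟩
    · obtain ⟨i', rfl⟩ := Nat.exists_eq_succ_of_ne_zero h0.ne'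
      rw [Nat.succ_eq_add_one, Function.iterate_succ_apply, T_two] at h
      exact ⟨i', h⟩
  · rintro ⟨i, h⟩
    refine ⟨i + 1, ?_⟩
    rw [Function.iterate_succ_apply, T_two]; exact h

theorem cnt_FH {a : ℤ} (ha : Odd a) (ha0 : a < 0) {j : ℕ} (hj : 1 ≤ j) (X : ℕ) :
    ((cP (fun N => ∃ i : ℕ, i ≤ j ∧ T^[i] N = a) (X : ℝ) : ℕ) : ℝ) = Nc (FH a j) X - Nc (FH a (j - 1)) (X / 2) := by
  classical
  have h1 := odd_sum (FH a j) (FH a (j - 1)) (fun m => by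
    obtain ⟨j', rfl⟩ := Nat.exists_eq_succ_of_ne_zero (by omega : j ≠ 0)
    exact FH_two ha j' m) X
  have h2 := odd_card (fun N => ∃ i : ℕ, i ≤ j ∧ T^[i] N = a) (fun n hn => by
    rintro ⟨i, _, h⟩
    have := T_iter_nonneg hn i
    omega) X
  rw [← h1, ← h2]
  apply Finset.sum_congr rfl
  intro n _
  unfold FH
  by_cases hp : ∃ i : ℕ, i ≤ j ∧ T^[i] n = a
  · rw [if_pos hp, if_pos hp]
  · rw [if_neg hp, if_neg hp]

theorem cnt_FI {a : ℤ} (ha : Odd a) (ha0 : a < 0) (X : ℕ) :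
    ((cP (fun N => ∃ i : ℕ, T^[i] N = a) (X : ℝ) : ℕ) : ℝ) = Nc (FI a) X - Nc (FI a) (X / 2) := by
  classical
  have h1 := odd_sum (FI a) (FI a) (FI_two ha) X
  have h2 := odd_card (fun N => ∃ i : ℕ, T^[i] N = a) (fun n hn => by
    rintro ⟨i, h⟩
    have := T_iter_nonneg hn i
    omega) X
  rw [← h1, ← h2]
  apply Finset.sum_congr rfl
  intro n _
  unfold FI
  exact if_congr Iff.rfl rfl rfl

theorem half_ratio : Tendsto (fun X : ℕ => ((X / 2 : ℕ) : ℝ) / X) atTop (𝓝 (1 / 2)) := by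
  have h2 : Tendsto (fun X : ℕ => (1 : ℝ) / 2 - 1 * ((1 : ℝ) / X)) atTop (𝓝 (1 / 2 - 1 * 0)) :=
    (tendsto_one_div_atTop_nhds_zero_nat.const_mul 1).const_sub (1 / 2)
  rw [mul_zero, sub_zero] at h2
  apply tendsto_of_tendsto_of_tendsto_of_le_of_le' h2 tendsto_const_nhds
  · filter_upwards [eventually_ge_atTop 1] with X hX
    have hX0 : (0 : ℝ) < X := by exact_mod_cast hX
    rw [le_div_iff₀ hX0, sub_mul, one_mul, one_div_mul_cancel hX0.ne']
    have : X ≤ 2 * (X / 2) + 1 := by omega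
    have : (X : ℝ) ≤ 2 * ((X / 2 : ℕ) : ℝ) + 1 := by exact_mod_cast this
    linarith
  · filter_upwards [eventually_ge_atTop 1] with X hX
    have hX0 : (0 : ℝ) < X := by exact_mod_cast hX
    rw [div_le_iff₀ hX0]
    have : 2 * (X / 2) ≤ X := by omega
    have : 2 * ((X / 2 : ℕ) : ℝ) ≤ X := by exact_mod_cast this
    linarith

/-- a sequence that converges along the even and along the odd integers -/
theorem par_lim {g : ℕ → ℝ} {L : ℝ} (h0 : Tendsto (fun Y : ℕ => g (2 * Y)) atTop (𝓝 L))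
    (h1 : Tendsto (fun Y : ℕ => g (2 * Y + 1)) atTop (𝓝 L)) : Tendsto g atTop (𝓝 L) := by
  rw [Metric.tendsto_atTop] at h0 h1 ⊢
  intro ε hε
  obtain ⟨N0, H0⟩ := h0 ε hε
  obtain ⟨N1, H1⟩ := h1 ε hε
  refine ⟨2 * max N0 N1, fun X hX => ?_⟩
  rcases Nat.even_or_odd' X with ⟨Y, hY | hY⟩
  · rw [hY]; exact H0 Y (by omega)
  · rw [hY]; exact H1 Y (by omega)

theorem lim_half {f : ℕ → ℝ} {g : ℕ → ℝ} {L : ℝ} (hf : Tendsto (fun X : ℕ => f X / X) atTop (𝓝 L))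
    (hg : Tendsto (fun X : ℕ => g X / ((X / 2 : ℕ) : ℝ)) atTop (𝓝 L)) :
    Tendsto (fun X : ℕ => (f X - g X) / X) atTop (𝓝 (L / 2)) := by
  have h3 := hf.sub (hg.mul half_ratio)
  rw [show L - L * (1 / 2) = L / 2 by ring] at h3
  refine h3.congr' ?_
  filter_upwards [eventually_ge_atTop 2] with X hX
  have hX0 : (X : ℝ) ≠ 0 := by
    have : (0 : ℝ) < X := by exact_mod_cast (by omega : 0 < X)
    exact this.ne'
  have hX2 : ((X / 2 : ℕ) : ℝ) ≠ 0 := by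
    have : 0 < X / 2 := by omega
    exact_mod_cast this.ne'
  field_simp

end Pool.Agent.Helper32.HT
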