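import Pool.Agent.Helper32.HT.FIN
import Pool.Agent.Helper3.HT.Stmts3

/-! The normal law for the number of Syracuse steps in residue classes. -/

namespace Pool.Agent.Helper32.HT

open Pool.Agent.Helper3.ND Pool.Agent.Helper3.TD Pool.Agent.Helper3.HT Filter Topology

/-- the number of negative integers at least `-x` with the properties `R` and `P` -/
noncomputable def cR (R P : ℤ → Prop) (x : ℝ) : ℕ := {N : ℤ | N < 0 ∧ R N ∧ -x ≤ (N : ℝ) ∧ P N}.ncard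

theorem cR_fin (R P : ℤ → Prop) (x : ℝ) : {N : ℤ | N < 0 ∧ R N ∧ -x ≤ (N : ℝ) ∧ P N}.Finite := by
  apply Set.Finite.subset (Set.finite_Ico (-⌈x⌉) 0)
  rintro N ⟨h1, _, h2, _⟩
  rw [Set.mem_Ico]
  refine ⟨?_, h1⟩
  have h3 := Int.le_ceil x
  have h4 : (-(⌈x⌉ : ℤ) : ℝ) ≤ (N : ℝ) := by linarith
  exact_mod_cast h4

theorem cR_mono {R P Q : ℤ → Prop} {x y : ℝ} (h : ∀ N : ℤ, N < 0 → R N → -x ≤ (N : ℝ) → P N → -y ≤ (N : ℝ) ∧ Q N) :
    cR R P x ≤ cR R Q y := by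
  unfold cR
  apply Set.ncard_le_ncard _ (cR_fin R Q y)
  rintro N ⟨h1, h2, h3, h4⟩
  obtain ⟨h5, h6⟩ := h N h1 h2 h3 h4
  exact ⟨h1, h2, h5, h6⟩

theorem cR_small (R P : ℤ → Prop) {x : ℝ} (hx : 0 ≤ x) : (cR R P x : ℝ) ≤ x + 1 := by
  have h1 : {N : ℤ | N < 0 ∧ R N ∧ -x ≤ (N : ℝ) ∧ P N} ⊆ ((Finset.Ico (-(⌊x⌋₊ : ℤ)) 0 : Finset ℤ) : Set ℤ) := by
    rintro N ⟨a1, _, a2, _⟩
    rw [Finset.mem_coe, Finset.mem_Ico]
    refine ⟨?_, a1⟩
    have h5 : (((-N).toNat : ℕ) : ℝ) ≤ x := by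
      have : (((-N).toNat : ℕ) : ℤ) = -N := Int.toNat_of_nonneg (by omega)
      have h6 : (((-N).toNat : ℕ) : ℝ) = -(N : ℝ) := by exact_mod_cast congrArg (Int.cast : ℤ → ℝ) this
      rw [h6]; linarith
    have h6 := Nat.le_floor h5
    omega
  have h2 := Set.ncard_le_ncard h1 (Finset.finite_toSet _)
  rw [Set.ncard_coe_finset, Int.card_Ico] at h2
  have h3 : ((0 - -(⌊x⌋₊ : ℤ)).toNat) = ⌊x⌋₊ := by omega
  rw [h3] at h2
  have h4 : (cR R P x : ℝ) ≤ ⌊x⌋₊ := by exact_mod_cast h2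
  have := Nat.floor_le hx
  linarith

theorem cR_union {R P Q S : ℤ → Prop} {x y z : ℝ}
    (h : ∀ N : ℤ, N < 0 → R N → -x ≤ (N : ℝ) → P N → (-y ≤ (N : ℝ) ∧ Q N) ∨ (-z ≤ (N : ℝ) ∧ S N)) :
    cR R P x ≤ cR R Q y + cR R S z := by
  unfold cR
  refine le_trans (Set.ncard_le_ncard ?_ ((cR_fin R Q y).union (cR_fin R S z))) (Set.ncard_union_le _ _)
  rintro N ⟨h1, h2, h3, h4⟩
  rcases h N h1 h2 h3 h4 with ⟨h5, h6⟩ | ⟨h5, h6⟩
  · left; exact ⟨h1, h2, h5, h6⟩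
  · right; exact ⟨h1, h2, h5, h6⟩

open Classical in
theorem cR_card (R P : ℤ → Prop) (hP : ∀ n : ℤ, 0 ≤ n → ¬ P n) (X : ℕ) :
    Nc (fun N => if R N then (if P N then (1 : ℝ) else 0) else 0) X = cR R P (X : ℝ) := by
  unfold Nc
  have h1 : ∀ n : ℤ, (if R n then (if P n then (1 : ℝ) else 0) else 0) = if (R n ∧ P n) then 1 else 0 := by
    intro n
    by_cases h2 : R n <;> by_cases h3 : P n <;> simp [h2, h3]
  rw [Finset.sum_congr rfl (fun n _ => h1 n), ← Finset.sum_filter, Finset.sum_const, nsmul_eq_mul, mul_one]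
  unfold cR
  congr 1
  rw [← Set.ncard_coe_finset]
  congr 1
  ext N
  simp only [Finset.coe_filter, Finset.mem_Icc, Set.mem_ofPred_eq]
  constructor
  · rintro ⟨⟨a1, a2⟩, a3, a4⟩
    refine ⟨?_, a3, by exact_mod_cast a1, a4⟩
    by_contra hc
    exact hP N (not_lt.mp hc) a4
  · rintro ⟨a1, a2, a3, a4⟩
    have h5 : -(X : ℤ) ≤ N := by exact_mod_cast a3
    exact ⟨⟨h5, by omega⟩, a2, a4⟩

theorem cR_FH {a : ℤ} (ha0 : a < 0) (R : ℤ → Prop) [DecidablePred R] (j : ℕ) (X : ℕ) :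
    Nc (fun N => if R N then FH a j N else 0) X = cR R (fun N => ∃ i : ℕ, i ≤ j ∧ T^[i] N = a) (X : ℝ) := by
  classical
  rw [← cR_card R (fun N => ∃ i : ℕ, i ≤ j ∧ T^[i] N = a) (fun n hn => by
    rintro ⟨i, _, h⟩
    have := T_iter_nonneg hn i
    omega) X]
  unfold Nc
  apply Finset.sum_congr rfl
  intro n _
  beta_reduce
  unfold FH
  by_cases hr : R n
  · rw [if_pos hr, if_pos hr]
    by_cases hp : ∃ i : ℕ, i ≤ j ∧ T^[i] n = a
    · rw [if_pos hp, if_pos hp]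
    · rw [if_neg hp, if_neg hp]
  · rw [if_neg hr, if_neg hr]

theorem cR_FI {a : ℤ} (ha0 : a < 0) (R : ℤ → Prop) [DecidablePred R] (X : ℕ) :
    Nc (fun N => if R N then FI a N else 0) X = cR R (fun N => ∃ i : ℕ, T^[i] N = a) (X : ℝ) := by
  classical
  rw [← cR_card R (fun N => ∃ i : ℕ, T^[i] N = a) (fun n hn => by
    rintro ⟨i, h⟩
    have := T_iter_nonneg hn i
    omega) X]
  unfold Nc
  apply Finset.sum_congr rfl
  intro n _
  beta_reduce
  unfold FI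
  by_cases hr : R n
  · rw [if_pos hr, if_pos hr]
  · rw [if_neg hr, if_neg hr]

/-- the normal law along the natural numbers -/
theorem cls_nat {a : ℤ} (ha : Odd a) (ha0 : a < 0) {R : ℤ → Prop} (hR : ∀ N, R N → Odd N) {L : ℝ} (s : ℝ)
    (hc : ∀ J : ℕ → ℕ, Tendsto J atTop atTop →
      Tendsto (fun X : ℕ => ((J X : ℝ) * Pool.Agent.Helper3.TD.mu - Real.log X) / (Real.log 3 / 2 * Real.sqrt (J X))) atTop (𝓝 s) →
      Tendsto (fun X : ℕ => ((cR R (fun N => ∃ i : ℕ, i ≤ J X ∧ T^[i] N = a) (X : ℝ) : ℕ) : ℝ) / X) atTop (𝓝 L)) :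
    Tendsto (fun X : ℕ => ((cR R (fun N => ∃ k : ℕ, syr^[k] N = a ∧ Cnd s (X : ℝ) k) (X : ℝ) : ℕ) : ℝ) / X) atTop (𝓝 L) := by
  have h1 := hc _ (Jp_lim s).1 (Jp_lim s).2
  have h2 := hc _ (Jm_lim s).1 (Jm_lim s).2
  have h3 : Tendsto (fun X : ℕ => (Real.log X)⁻¹ + (X : ℝ)⁻¹) atTop (𝓝 (0 + 0)) :=
    (tendsto_inv_atTop_zero.comp (Real.tendsto_log_atTop.comp tendsto_natCast_atTop_atTop)).add
      (tendsto_inv_atTop_zero.comp tendsto_natCast_atTop_atTop)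
  have h4 := h2.sub h3
  rw [add_zero, sub_zero] at h4
  refine tendsto_of_tendsto_of_tendsto_of_le_of_le' h4 h1 ?_ ?_
  · filter_upwards [ev_X s (Real.log (-(a : ℝ))), (AA_top s).eventually_ge_atTop 0, eventually_ge_atTop 1] with X hX hA hX1
    obtain ⟨e1, e2, e3⟩ := hX
    have hXR : (0 : ℝ) < X := by exact_mod_cast hX1
    have h5 : cR R (fun N => ∃ i : ℕ, i ≤ ⌊AA s X - Real.sqrt (Real.sqrt (Real.log X))⌋₊ ∧ T^[i] N = a) (X : ℝ) ≤
        cR R (fun N => ∃ k : ℕ, syr^[k] N = a ∧ Cnd s (X : ℝ) k) (X : ℝ) + cR R (fun _ => True) ((X : ℝ) / Real.log X) := by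
      apply cR_union
      rintro N b1 b2 b3 ⟨i, b4, b5⟩
      by_cases hc' : (X : ℝ) ≤ (-(N : ℝ)) * Real.log X
      · left
        refine ⟨b3, down_le ha ha0 hXR e1 e2 e3 (hR N b2) b1 hc' ?_ b5⟩
        exact (Nat.le_floor_iff hA).mp b4
      · right
        refine ⟨?_, trivial⟩
        have h6 : (-(N : ℝ)) ≤ X / Real.log X := by
          rw [le_div_iff₀ e1]
          exact (not_le.mp hc').le
        linarith
    have h6 : (cR R (fun _ => True) ((X : ℝ) / Real.log X) : ℝ) ≤ X / Real.log X + 1 := cR_small _ _ (div_pos hXR e1).le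
    have h7 : ((cR R (fun N => ∃ i : ℕ, i ≤ ⌊AA s X - Real.sqrt (Real.sqrt (Real.log X))⌋₊ ∧ T^[i] N = a) (X : ℝ) : ℕ) : ℝ) ≤
        ((cR R (fun N => ∃ k : ℕ, syr^[k] N = a ∧ Cnd s (X : ℝ) k) (X : ℝ) : ℕ) : ℝ) +
          (cR R (fun _ => True) ((X : ℝ) / Real.log X) : ℝ) := by
      exact_mod_cast h5
    have h8 : (Real.log X)⁻¹ + (X : ℝ)⁻¹ = (X / Real.log X + 1) / X := by
      field_simp
    rw [h8, ← sub_div]
    apply div_le_div_of_nonneg_right _ hXR.le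
    linarith
  · filter_upwards [eventually_ge_atTop 1] with X hX1
    have hXR : (0 : ℝ) < X := by exact_mod_cast hX1
    apply div_le_div_of_nonneg_right _ hXR.le
    have h5 : cR R (fun N => ∃ k : ℕ, syr^[k] N = a ∧ Cnd s (X : ℝ) k) (X : ℝ) ≤
        cR R (fun N => ∃ i : ℕ, i ≤ ⌊AA s X⌋₊ ∧ T^[i] N = a) (X : ℝ) := by
      apply cR_mono
      rintro N b1 b2 b3 ⟨k, b4, b5⟩
      exact ⟨b3, up_le ha0 hXR (hR N b2) b1 b3 b4 b5⟩
    exact_mod_cast h5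

theorem finc (hCLS : ST_CLS) : ST_FINC := by
  classical
  intro a ha0 ha
  obtain ⟨c, hc0, hcc⟩ := hCLS a ha0.ne
  refine ⟨c / 2, fun m hm b hb => ?_⟩
  obtain ⟨hc1, hc⟩ := hcc (2 * m) (by omega) b
  have hR : ∀ N : ℤ, (((2 * m : ℕ) : ℤ) ∣ N - b) → Odd N := by
    rintro N ⟨q, hq⟩
    obtain ⟨r, rfl⟩ := hb
    refine ⟨m * q + r, ?_⟩
    push_cast at hq
    linarith
  have hm0 : (m : ℝ) ≠ 0 := by
    have : (0 : ℝ) < m := by exact_mod_cast hm
    exact this.ne'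
  have hcm : c / ((2 * m : ℕ) : ℝ) = c / 2 / m := by
    push_cast
    field_simp
  rw [hcm] at hc1 hc
  have hcast : ∀ N : ℤ, (2 * (m : ℤ) ∣ N - b) ↔ (((2 * m : ℕ) : ℤ) ∣ N - b) := by
    intro N; push_cast; rfl
  refine ⟨?_, fun s => ?_⟩
  · have h2 : Tendsto (fun x : ℝ => ((cR (fun N => ((2 * m : ℕ) : ℤ) ∣ N - b) (fun N => ∃ k : ℕ, syr^[k] N = a) x : ℕ) : ℝ) / x) atTop
        (𝓝 (c / 2 / m)) := by
      apply real_lim (G := fun x => ((cR (fun N => ((2 * m : ℕ) : ℤ) ∣ N - b) (fun N => ∃ k : ℕ, syr^[k] N = a) x : ℕ) : ℝ))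
      · refine hc1.congr (fun X => ?_)
        rw [cR_FI ha0 (fun N => ((2 * m : ℕ) : ℤ) ∣ N - b) X]
        congr 2
        apply le_antisymm
        · apply cR_mono
          rintro N b1 b2 b3 ⟨i, b4⟩
          obtain ⟨k, b5, _⟩ := hit_down ha ha0 (hR N b2) b1 b4
          exact ⟨b3, k, b5⟩
        · apply cR_mono
          rintro N b1 b2 b3 ⟨k, b4⟩
          obtain ⟨j, b5, _⟩ := hit_up (hR N b2) b1 k
          exact ⟨b3, j, by rw [b5, b4]⟩
      · filter_upwards [eventually_ge_atTop 1] with x hx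
        have h3 := Nat.floor_le (show 0 ≤ x by linarith)
        have h4 := Nat.lt_floor_add_one x
        constructor
        · exact_mod_cast cR_mono (fun N _ _ b3 b4 => ⟨by linarith, b4⟩)
        · exact_mod_cast cR_mono (fun N _ _ b3 b4 => ⟨by push_cast; linarith, b4⟩)
    simp only [hcast]
    exact h2
  · have h2 : Tendsto (fun x : ℝ => ((cR (fun N => ((2 * m : ℕ) : ℤ) ∣ N - b)
        (fun N => ∃ k : ℕ, syr^[k] N = a ∧ Cnd s x k) x : ℕ) : ℝ) / x) atTop (𝓝 (c / 2 / m * gs s)) := by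
      apply real_lim (G := fun x => ((cR (fun N => ((2 * m : ℕ) : ℤ) ∣ N - b) (fun N => ∃ k : ℕ, syr^[k] N = a ∧ Cnd s x k) x : ℕ) : ℝ))
      · apply cls_nat ha ha0 hR s
        intro J hJ hs
        refine (hc s J (fun n => n) hJ tendsto_id hs).congr (fun X => ?_)
        rw [cR_FH ha0 (fun N => ((2 * m : ℕ) : ℤ) ∣ N - b) (J X) X]
      · have h5 : Tendsto (fun x : ℝ => Real.sqrt DD * Real.sqrt (Real.log ((⌊x⌋₊ : ℕ) : ℝ))) atTop atTop :=
          (r_top.comp (tendsto_nat_floor_atTop (α := ℝ))).const_mul_atTop (Real.sqrt_pos.mpr DD_pos)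
        filter_upwards [eventually_ge_atTop 1, h5.eventually_ge_atTop (|s| * (Real.log 2 * Real.sqrt 2))] with x hx hx2
        have h3 := Nat.floor_le (show 0 ≤ x by linarith)
        have h4 := Nat.lt_floor_add_one x
        have h6 : (1 : ℝ) ≤ ((⌊x⌋₊ : ℕ) : ℝ) := by
          have : 1 ≤ ⌊x⌋₊ := Nat.le_floor (by exact_mod_cast hx)
          exact_mod_cast this
        constructor
        · exact_mod_cast cR_mono (fun N _ _ b3 b4 => by
            obtain ⟨k, b5, b6⟩ := b4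
            exact ⟨by linarith, k, b5, Cnd_mono h6 h3 hx2 b6⟩)
        · exact_mod_cast cR_mono (fun N _ _ b3 b4 => by
            obtain ⟨k, b5, b6⟩ := b4
            refine ⟨by push_cast; linarith, k, b5, Cnd_mono hx (by push_cast; linarith) ?_ b6⟩
            refine hx2.trans (mul_le_mul_of_nonneg_left (Real.sqrt_le_sqrt (Real.log_le_log (by linarith) h3)) (Real.sqrt_nonneg _)))
    simp only [hcast]
    exact h2

end Pool.Agent.Helper32.HT
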