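import Pool.Agent.Helper32.HT.Cnt

/-! The asymptotic computations. -/

namespace Pool.Agent.Helper32.HT

open Pool.Agent.Helper3.ND Pool.Agent.Helper3.TD Pool.Agent.Helper3.HT Filter Topology

/-- the drift per Syracuse step -/
noncomputable def DD : ℝ := Real.log (4 / 3)

theorem DD_pos : 0 < DD := Real.log_pos (by norm_num)

theorem DD_eq : Real.log 3 + DD = 2 * Real.log 2 := by
  unfold DD
  rw [Real.log_div (by norm_num) (by norm_num), show (4 : ℝ) = 2 ^ 2 by norm_num, Real.log_pow]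
  push_cast
  ring

theorem mu_eq : Pool.Agent.Helper3.TD.mu = DD / 2 := by
  unfold Pool.Agent.Helper3.TD.mu
  have := DD_eq
  linarith

theorem log3_ge : 1 ≤ Real.log 3 := by
  have h1 : Real.exp 1 ≤ 3 := by
    have := Real.exp_one_lt_d9
    linarith
  have h2 := Real.log_le_log (Real.exp_pos 1) h1
  rwa [Real.log_exp] at h2

/-- the second order coefficient for the number of steps of `T` -/
noncomputable def sg (s : ℝ) : ℝ := s * Real.sqrt 2 * Real.log 3 / (DD * Real.sqrt DD)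

/-- the threshold for the number of steps of `T` -/
noncomputable def AA (s X : ℝ) : ℝ := 2 * Real.log X / DD + sg s * Real.sqrt (Real.log X)

/-- the threshold for the number of Syracuse steps -/
noncomputable def KK (s X : ℝ) : ℝ := Real.log X / DD + s * (Real.log 2 * Real.sqrt (2 * Real.log X)) / (DD * Real.sqrt DD)

theorem KK_AA (s X : ℝ) : KK s X * Real.log 3 + Real.log X = AA s X * Real.log 2 := by
  unfold KK AA sg
  have hD := DD_pos
  have hsD : 0 < Real.sqrt DD := Real.sqrt_pos.mpr hD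
  have h1 := DD_eq
  rw [Real.sqrt_mul (by norm_num : (0 : ℝ) ≤ 2)]
  have h2 : Real.log 3 = 2 * Real.log 2 - DD := by linarith
  rw [h2]
  field_simp
  ring

theorem KK_iff (s X : ℝ) (k : ℝ) : (k * DD - Real.log X) * Real.sqrt DD ≤ s * (Real.log 2 * Real.sqrt (2 * Real.log X)) ↔
    k ≤ KK s X := by
  unfold KK
  have hD := DD_pos
  have hsD : 0 < Real.sqrt DD := Real.sqrt_pos.mpr hD
  have hDD : 0 < DD * Real.sqrt DD := mul_pos hD hsD
  have h1 : Real.log X / DD + s * (Real.log 2 * Real.sqrt (2 * Real.log X)) / (DD * Real.sqrt DD) =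
      (Real.log X * Real.sqrt DD + s * (Real.log 2 * Real.sqrt (2 * Real.log X))) / (DD * Real.sqrt DD) := by
    field_simp
  rw [h1, le_div_iff₀ hDD]
  constructor <;> intro h <;> linarith

theorem r_top : Tendsto (fun X : ℕ => Real.sqrt (Real.log X)) atTop atTop :=
  Real.tendsto_sqrt_atTop.comp (Real.tendsto_log_atTop.comp tendsto_natCast_atTop_atTop)

theorem norm_lim {s : ℝ} {J : ℕ → ℕ} {e : ℕ → ℝ} (hJ : ∀ᶠ X : ℕ in atTop, (J X : ℝ) = AA s X + e X)
    (he : Tendsto (fun X : ℕ => e X / Real.sqrt (Real.log X)) atTop (𝓝 0)) :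
    Tendsto J atTop atTop ∧
    Tendsto (fun X : ℕ => ((J X : ℝ) * Pool.Agent.Helper3.TD.mu - Real.log X) / (Real.log 3 / 2 * Real.sqrt (J X))) atTop (𝓝 s) := by
  have hD := DD_pos
  have hsD : 0 < Real.sqrt DD := Real.sqrt_pos.mpr hD
  have hr := r_top
  have hr0 := hr.eventually_gt_atTop 0
  have hrinv : Tendsto (fun X : ℕ => (Real.sqrt (Real.log X))⁻¹) atTop (𝓝 0) := tendsto_inv_atTop_zero.comp hr
  have hlog : ∀ᶠ X : ℕ in atTop, Real.log X = Real.sqrt (Real.log X) * Real.sqrt (Real.log X) := by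
    filter_upwards [hr0] with X hX
    have : 0 ≤ Real.log X := by
      by_contra hc
      rw [Real.sqrt_eq_zero_of_nonpos (not_le.mp hc).le] at hX
      exact lt_irrefl _ hX
    exact (Real.mul_self_sqrt this).symm
  -- the ratio
  have h1 : Tendsto (fun X : ℕ => (J X : ℝ) / (Real.sqrt (Real.log X) * Real.sqrt (Real.log X))) atTop (𝓝 (2 / DD)) := by
    have h2 : Tendsto (fun X : ℕ => 2 / DD + sg s * (Real.sqrt (Real.log X))⁻¹ + e X / Real.sqrt (Real.log X) * (Real.sqrt (Real.log X))⁻¹)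
        atTop (𝓝 (2 / DD + sg s * 0 + 0 * 0)) := (tendsto_const_nhds.add (hrinv.const_mul _)).add (he.mul hrinv)
    rw [mul_zero, mul_zero, add_zero, add_zero] at h2
    refine h2.congr' ?_
    filter_upwards [hJ, hr0, hlog] with X h3 h4 h5
    rw [h3]
    unfold AA
    generalize Real.sqrt (Real.log X) = r at *
    rw [h5]
    field_simp
  have hJr : Tendsto (fun X : ℕ => (J X : ℝ)) atTop atTop := by
    have h2 := (hr.atTop_mul_atTop₀ hr).atTop_mul_pos (by positivity : 0 < 2 / DD) h1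
    refine h2.congr' ?_
    filter_upwards [hr0] with X h4
    field_simp
  refine ⟨tendsto_natCast_atTop_iff.1 hJr, ?_⟩
  have h2 : Tendsto (fun X : ℕ => Real.sqrt (J X) / Real.sqrt (Real.log X)) atTop (𝓝 (Real.sqrt (2 / DD))) := by
    have h3 := (Real.continuous_sqrt.tendsto _).comp h1
    refine h3.congr' ?_
    filter_upwards [hr0] with X h4
    simp only [Function.comp]
    rw [Real.sqrt_div (Nat.cast_nonneg _), Real.sqrt_mul_self h4.le]
  have h3 : Tendsto (fun X : ℕ => ((J X : ℝ) * Pool.Agent.Helper3.TD.mu - Real.log X) / Real.sqrt (Real.log X)) atTop (𝓝 (DD / 2 * (sg s + 0))) := by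
    have h4 := (tendsto_const_nhds (x := sg s)).add he |>.const_mul (DD / 2)
    refine h4.congr' ?_
    filter_upwards [hJ, hr0, hlog] with X h5 h6 h7
    rw [h5, mu_eq]
    unfold AA
    generalize Real.sqrt (Real.log X) = r at *
    rw [h7]
    field_simp
    ring
  have hl3 : 0 < Real.log 3 := lt_of_lt_of_le one_pos log3_ge
  have h4 := h3.div (h2.const_mul (Real.log 3 / 2)) (by positivity)
  have h5 : DD / 2 * (sg s + 0) / (Real.log 3 / 2 * Real.sqrt (2 / DD)) = s := by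
    unfold sg
    rw [Real.sqrt_div (by norm_num)]
    have hs2 : 0 < Real.sqrt 2 := by positivity
    field_simp
    ring
  rw [h5] at h4
  refine h4.congr' ?_
  filter_upwards [hr0, hJr.eventually_gt_atTop 0] with X h6 h7
  have h8 : 0 < Real.sqrt (J X) := Real.sqrt_pos.mpr h7
  simp only [Pi.div_apply]
  field_simp

theorem AA_top (s : ℝ) : Tendsto (fun X : ℕ => AA s X - Real.sqrt (Real.sqrt (Real.log X))) atTop atTop := by
  have hD := DD_pos
  have hr := r_top
  have hr0 := hr.eventually_gt_atTop 0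
  have hrinv : Tendsto (fun X : ℕ => (Real.sqrt (Real.log X))⁻¹) atTop (𝓝 0) := tendsto_inv_atTop_zero.comp hr
  have hrs : Tendsto (fun X : ℕ => (Real.sqrt (Real.sqrt (Real.log X)))⁻¹) atTop (𝓝 0) :=
    tendsto_inv_atTop_zero.comp (Real.tendsto_sqrt_atTop.comp hr)
  have h2 : Tendsto (fun X : ℕ => 2 / DD + sg s * (Real.sqrt (Real.log X))⁻¹ -
      (Real.sqrt (Real.sqrt (Real.log X)))⁻¹ * (Real.sqrt (Real.log X))⁻¹) atTop (𝓝 (2 / DD + sg s * 0 - 0 * 0)) :=
    (tendsto_const_nhds.add (hrinv.const_mul _)).sub (hrs.mul hrinv)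
  rw [mul_zero, mul_zero, add_zero, sub_zero] at h2
  have h3 := (hr.atTop_mul_atTop₀ hr).atTop_mul_pos (by positivity : 0 < 2 / DD) h2
  refine h3.congr' ?_
  filter_upwards [hr0] with X hX
  have hl : 0 ≤ Real.log X := by
    by_contra hc
    rw [Real.sqrt_eq_zero_of_nonpos (not_le.mp hc).le] at hX
    exact lt_irrefl _ hX
  unfold AA
  have e1 : Real.log X = Real.sqrt (Real.log X) * Real.sqrt (Real.log X) := (Real.mul_self_sqrt hl).symm
  have e2 : Real.sqrt (Real.log X) = Real.sqrt (Real.sqrt (Real.log X)) * Real.sqrt (Real.sqrt (Real.log X)) :=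
    (Real.mul_self_sqrt hX.le).symm
  have hX2 : 0 < Real.sqrt (Real.sqrt (Real.log X)) := Real.sqrt_pos.mpr hX
  generalize Real.sqrt (Real.sqrt (Real.log X)) = q at *
  generalize Real.sqrt (Real.log X) = r at *
  rw [e1, e2]
  field_simp

/-- the upper thresholds -/
theorem Jp_lim (s : ℝ) : Tendsto (fun X : ℕ => ⌊AA s X⌋₊) atTop atTop ∧
    Tendsto (fun X : ℕ => (((⌊AA s X⌋₊ : ℕ) : ℝ) * Pool.Agent.Helper3.TD.mu - Real.log X) / (Real.log 3 / 2 * Real.sqrt ((⌊AA s X⌋₊ : ℕ) : ℝ))) atTop (𝓝 s) := by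
  apply norm_lim (e := fun X : ℕ => ((⌊AA s X⌋₊ : ℕ) : ℝ) - AA s X)
  · exact Eventually.of_forall (fun X => by ring)
  · have h1 : Tendsto (fun X : ℕ => (1 : ℝ) / Real.sqrt (Real.log X)) atTop (𝓝 0) :=
      Tendsto.div_atTop tendsto_const_nhds r_top
    apply squeeze_zero_norm' _ h1
    filter_upwards [r_top.eventually_gt_atTop 0, (AA_top s).eventually_ge_atTop 0] with X hX hA
    have hA0 : 0 ≤ AA s X := by
      have := Real.sqrt_nonneg (Real.sqrt (Real.log X))
      linarith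
    rw [Real.norm_eq_abs, abs_div, abs_of_pos hX]
    apply div_le_div_of_nonneg_right _ hX.le
    rw [abs_le]
    have h2 := Nat.floor_le hA0
    have h3 := Nat.lt_floor_add_one (AA s X)
    constructor <;> linarith

/-- the lower thresholds -/
theorem Jm_lim (s : ℝ) : Tendsto (fun X : ℕ => ⌊AA s X - Real.sqrt (Real.sqrt (Real.log X))⌋₊) atTop atTop ∧
    Tendsto (fun X : ℕ => (((⌊AA s X - Real.sqrt (Real.sqrt (Real.log X))⌋₊ : ℕ) : ℝ) * Pool.Agent.Helper3.TD.mu - Real.log X) /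
      (Real.log 3 / 2 * Real.sqrt ((⌊AA s X - Real.sqrt (Real.sqrt (Real.log X))⌋₊ : ℕ) : ℝ))) atTop (𝓝 s) := by
  apply norm_lim (e := fun X : ℕ => ((⌊AA s X - Real.sqrt (Real.sqrt (Real.log X))⌋₊ : ℕ) : ℝ) - AA s X)
  · exact Eventually.of_forall (fun X => by ring)
  · have h1 : Tendsto (fun X : ℕ => (1 : ℝ) / Real.sqrt (Real.log X) + (Real.sqrt (Real.sqrt (Real.log X)))⁻¹) atTop (𝓝 (0 + 0)) :=
      (Tendsto.div_atTop tendsto_const_nhds r_top).add
        (tendsto_inv_atTop_zero.comp (Real.tendsto_sqrt_atTop.comp r_top))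
    rw [add_zero] at h1
    apply squeeze_zero_norm' _ h1
    filter_upwards [r_top.eventually_gt_atTop 0, (AA_top s).eventually_ge_atTop 0] with X hX hA
    have e2 : Real.sqrt (Real.log X) = Real.sqrt (Real.sqrt (Real.log X)) * Real.sqrt (Real.sqrt (Real.log X)) :=
      (Real.mul_self_sqrt hX.le).symm
    have hX2 : 0 < Real.sqrt (Real.sqrt (Real.log X)) := Real.sqrt_pos.mpr hX
    have h4 : (1 : ℝ) / Real.sqrt (Real.log X) + (Real.sqrt (Real.sqrt (Real.log X)))⁻¹ =
        (1 + Real.sqrt (Real.sqrt (Real.log X))) / Real.sqrt (Real.log X) := by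
      rw [add_div]
      congr 1
      rw [eq_div_iff hX.ne']
      nth_rewrite 2 [e2]
      field_simp
    rw [h4, Real.norm_eq_abs, abs_div, abs_of_pos hX]
    apply div_le_div_of_nonneg_right _ hX.le
    rw [abs_le]
    have h2 := Nat.floor_le hA
    have h3 := Nat.lt_floor_add_one (AA s X - Real.sqrt (Real.sqrt (Real.log X)))
    constructor <;> linarith

/-- the error terms are small -/
theorem ev_q (c B : ℝ) : ∀ᶠ q : ℝ in atTop, 0 < q ∧ 0 ≤ (q ^ 4) ^ 2 / DD + c * q ^ 4 ∧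
    Real.log ((q ^ 4) ^ 2 / DD + c * q ^ 4 + 1) + B + Real.log ((q ^ 4) ^ 2) < Real.log 2 * q ^ 2 := by
  have hD := DD_pos
  filter_upwards [eventually_ge_atTop 60, eventually_ge_atTop (3 / DD), eventually_ge_atTop (3 * |c|),
    eventually_ge_atTop (|c| * DD), eventually_ge_atTop |B|] with q h1 h2 h3 h4 h5
  have hq : 0 < q := by linarith
  have hq1 : 1 ≤ q := by linarith
  have hca := neg_abs_le c
  have hcb := le_abs_self c
  have q4 : q ≤ q ^ 4 := by
    calc q = q ^ 1 := (pow_one q).symm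
      _ ≤ q ^ 4 := pow_le_pow_right₀ hq1 (by norm_num)
  have q40 : 0 < q ^ 4 := by positivity
  have hk0 : 0 ≤ (q ^ 4) ^ 2 / DD + c * q ^ 4 := by
    have h6 : |c| * q ^ 4 ≤ (q ^ 4) ^ 2 / DD := by
      rw [le_div_iff₀ hD]
      nlinarith
    nlinarith
  refine ⟨hq, hk0, ?_⟩
  have hk1 : (q ^ 4) ^ 2 / DD + c * q ^ 4 + 1 ≤ q ^ 12 := by
    have a1 : (q ^ 4) ^ 2 / DD ≤ q ^ 12 / 3 := by
      have : 1 / DD ≤ q / 3 := by
        rw [div_le_iff₀ hD] at h2
        rw [div_le_div_iff₀ hD (by norm_num)]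
        linarith
      calc (q ^ 4) ^ 2 / DD = q ^ 8 * (1 / DD) := by ring
        _ ≤ q ^ 8 * (q / 3) := mul_le_mul_of_nonneg_left this (by positivity)
        _ = q ^ 9 / 3 := by ring
        _ ≤ q ^ 12 / 3 := by
            apply div_le_div_of_nonneg_right _ (by norm_num)
            exact pow_le_pow_right₀ hq1 (by norm_num)
    have a2 : c * q ^ 4 ≤ q ^ 12 / 3 := by
      calc c * q ^ 4 ≤ (q / 3) * q ^ 4 := mul_le_mul_of_nonneg_right (by linarith) (by positivity)
        _ = q ^ 5 / 3 := by ring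
        _ ≤ q ^ 12 / 3 := by
            apply div_le_div_of_nonneg_right _ (by norm_num)
            exact pow_le_pow_right₀ hq1 (by norm_num)
    have a3 : (1 : ℝ) ≤ q ^ 12 / 3 := by
      have : q ^ 1 ≤ q ^ 12 := pow_le_pow_right₀ hq1 (by norm_num)
      rw [pow_one] at this
      linarith
    linarith
  have hlq : Real.log q ≤ q := by
    have := Real.log_le_sub_one_of_pos hq
    linarith
  have b1 : Real.log ((q ^ 4) ^ 2 / DD + c * q ^ 4 + 1) ≤ 12 * q := by
    calc Real.log ((q ^ 4) ^ 2 / DD + c * q ^ 4 + 1) ≤ Real.log (q ^ 12) := Real.log_le_log (by linarith) hk1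
      _ = 12 * Real.log q := by rw [Real.log_pow]; norm_num
      _ ≤ 12 * q := by linarith
  have b2 : Real.log ((q ^ 4) ^ 2) ≤ 8 * q := by
    rw [← pow_mul, Real.log_pow]
    push_cast
    linarith
  have b3 : B ≤ q := le_trans (le_abs_self B) h5
  have hl2 : 0.69 ≤ Real.log 2 := by
    have := Real.log_two_gt_d9
    linarith
  nlinarith

theorem ev_X (s B : ℝ) : ∀ᶠ X : ℕ in atTop, 0 < Real.log X ∧ 0 ≤ KK s X ∧
    Real.log (KK s X + 1) + B + Real.log (Real.log X) < Real.log 2 * Real.sqrt (Real.sqrt (Real.log X)) := by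
  have hq : Tendsto (fun X : ℕ => Real.sqrt (Real.sqrt (Real.sqrt (Real.log X)))) atTop atTop :=
    Real.tendsto_sqrt_atTop.comp (Real.tendsto_sqrt_atTop.comp r_top)
  have h1 := hq.eventually (ev_q (s * Real.log 2 * Real.sqrt 2 / (DD * Real.sqrt DD)) B)
  filter_upwards [h1] with X hX
  obtain ⟨h2, h3, h4⟩ := hX
  have hr2 : 0 < Real.sqrt (Real.sqrt (Real.log X)) := by
    by_contra hc
    rw [Real.sqrt_eq_zero_of_nonpos (not_lt.mp hc)] at h2
    exact lt_irrefl _ h2
  have hr1 : 0 < Real.sqrt (Real.log X) := by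
    by_contra hc
    rw [Real.sqrt_eq_zero_of_nonpos (not_lt.mp hc)] at hr2
    exact lt_irrefl _ hr2
  have hr0 : 0 < Real.log X := by
    by_contra hc
    rw [Real.sqrt_eq_zero_of_nonpos (not_lt.mp hc)] at hr1
    exact lt_irrefl _ hr1
  have e1 : (Real.sqrt (Real.sqrt (Real.sqrt (Real.log X)))) ^ 2 = Real.sqrt (Real.sqrt (Real.log X)) := Real.sq_sqrt hr2.le
  have e2 : (Real.sqrt (Real.sqrt (Real.log X))) ^ 2 = Real.sqrt (Real.log X) := Real.sq_sqrt hr1.le
  have e3 : (Real.sqrt (Real.log X)) ^ 2 = Real.log X := Real.sq_sqrt hr0.le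
  have e4 : (Real.sqrt (Real.sqrt (Real.sqrt (Real.log X)))) ^ 4 = Real.sqrt (Real.log X) := by
    rw [show (4 : ℕ) = 2 * 2 by norm_num, pow_mul, e1, e2]
  rw [e4, e3] at h3 h4
  rw [e1] at h4
  have e5 : Real.log X / DD + s * Real.log 2 * Real.sqrt 2 / (DD * Real.sqrt DD) * Real.sqrt (Real.log X) = KK s X := by
    unfold KK
    rw [Real.sqrt_mul (by norm_num : (0 : ℝ) ≤ 2)]
    ring
  rw [e5] at h3 h4
  exact ⟨hr0, h3, h4⟩

end Pool.Agent.Helper32.HT
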