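import Pool.Agent.Helper32.HT.Hit
import Pool.Agent.Helper32.HT.Asy

/-! Row FIN: the normal law for the number of Syracuse steps. -/

namespace Pool.Agent.Helper32.HT

open Pool.Agent.Helper3.ND Pool.Agent.Helper3.TD Pool.Agent.Helper3.HT Filter Topology

/-- the condition on the number of steps -/
def Cnd (s X : ℝ) (k : ℕ) : Prop :=
  ((k : ℝ) * DD - Real.log X) * Real.sqrt DD ≤ s * (Real.log 2 * Real.sqrt (2 * Real.log X))

theorem odd_lim {a : ℤ} (ha : Odd a) (ha0 : a < 0) {c s : ℝ} {J : ℕ → ℕ}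
    (hc : ∀ (s : ℝ) (J : ℕ → ℕ), Tendsto J atTop atTop →
      Tendsto (fun X : ℕ => ((J X : ℝ) * Pool.Agent.Helper3.TD.mu - Real.log X) / (Real.log 3 / 2 * Real.sqrt (J X))) atTop (𝓝 s) →
      Tendsto (fun X : ℕ => Nc (FH a (J X)) X / X) atTop (𝓝 (c * gs s)))
    (hJ : Tendsto J atTop atTop)
    (hs : Tendsto (fun X : ℕ => ((J X : ℝ) * Pool.Agent.Helper3.TD.mu - Real.log X) / (Real.log 3 / 2 * Real.sqrt (J X))) atTop (𝓝 s)) :
    Tendsto (fun X : ℕ => ((cP (fun N => ∃ i : ℕ, i ≤ J X ∧ T^[i] N = a) (X : ℝ) : ℕ) : ℝ) / X) atTop (𝓝 (c * gs s / 2)) := by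
  have h2 : Tendsto (fun Y : ℕ => 2 * Y) atTop atTop := tendsto_atTop_mono (f := fun Y : ℕ => Y) (fun Y => by omega) tendsto_id
  have h21 : Tendsto (fun Y : ℕ => 2 * Y + 1) atTop atTop := tendsto_atTop_mono (f := fun Y : ℕ => Y) (fun Y => by omega) tendsto_id
  have hD1 : ∀ j : ℕ, |((j - 1 : ℕ) : ℝ) - j| ≤ 1 := by
    intro j
    rcases Nat.eq_zero_or_pos j with h | h
    · rw [h]; simp
    · rw [Nat.cast_sub h]; simp
  have hg : Tendsto (fun X : ℕ => Nc (FH a (J X - 1)) (X / 2) / ((X / 2 : ℕ) : ℝ)) atTop (𝓝 (c * gs s)) := by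
    apply par_lim
    · obtain ⟨a1, a2⟩ := shift_ok (J := fun Y => J (2 * Y)) (J' := fun Y => J (2 * Y) - 1) (L := fun Y => Real.log ((2 * Y : ℕ) : ℝ))
        (L' := fun Y => Real.log (Y : ℝ)) (s := s) (D := 1) (E := Real.log 2) (hJ.comp h2) (hs.comp h2)
        (Eventually.of_forall (fun Y => hD1 _)) (by
          intro Y
          rcases Nat.eq_zero_or_pos Y with h | h
          · rw [h]; simp [Real.log_nonneg]
          · have hY : (Y : ℝ) ≠ 0 := by exact_mod_cast h.ne'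
            push_cast
            rw [Real.log_mul (by norm_num) hY, show Real.log (Y : ℝ) - (Real.log 2 + Real.log (Y : ℝ)) = -Real.log 2 by ring, abs_neg,
              abs_of_nonneg (Real.log_nonneg (by norm_num))])
      have h3 := hc s _ a1 a2
      refine h3.congr (fun Y => ?_)
      rw [Nat.mul_div_cancel_left Y (by norm_num : 0 < 2)]
    · obtain ⟨a1, a2⟩ := shift_ok (J := fun Y => J (2 * Y + 1)) (J' := fun Y => J (2 * Y + 1) - 1)
        (L := fun Y => Real.log ((2 * Y + 1 : ℕ) : ℝ))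
        (L' := fun Y => Real.log (Y : ℝ)) (s := s) (D := 1) (E := Real.log 3) (hJ.comp h21) (hs.comp h21)
        (Eventually.of_forall (fun Y => hD1 _)) (by
          intro Y
          rcases Nat.eq_zero_or_pos Y with h | h
          · rw [h]; simp [Real.log_nonneg]
          · have hY : (1 : ℝ) ≤ (Y : ℝ) := by exact_mod_cast h
            push_cast
            have e1 : Real.log (Y : ℝ) ≤ Real.log (2 * (Y : ℝ) + 1) := Real.log_le_log (by linarith) (by linarith)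
            have e2 : Real.log (2 * (Y : ℝ) + 1) ≤ Real.log (3 * (Y : ℝ)) := Real.log_le_log (by linarith) (by linarith)
            rw [Real.log_mul (by norm_num) (by linarith)] at e2
            rw [abs_sub_comm, abs_of_nonneg (by linarith)]
            linarith)
      have h3 := hc s _ a1 a2
      refine h3.congr (fun Y => ?_)
      have : (2 * Y + 1) / 2 = Y := by omega
      rw [this]
  have h4 := lim_half (f := fun X => Nc (FH a (J X)) X) (g := fun X => Nc (FH a (J X - 1)) (X / 2)) (hc s J hJ hs) hg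
  refine h4.congr' ?_
  filter_upwards [hJ.eventually_ge_atTop 1] with X hX
  rw [cnt_FH ha ha0 hX]

theorem up_le {a : ℤ} (ha0 : a < 0) {s X : ℝ} (hX : 0 < X) {N : ℤ} (ho : Odd N) (h0 : N < 0) (hN : -X ≤ (N : ℝ)) {k : ℕ}
    (hk : syr^[k] N = a) (hc : Cnd s X k) : ∃ j : ℕ, j ≤ ⌊AA s X⌋₊ ∧ T^[j] N = a := by
  obtain ⟨j, h1, h2⟩ := hit_up ho h0 k
  rw [hk] at h1 h2
  refine ⟨j, ?_, h1⟩
  apply Nat.le_floor
  have h3 : (2 : ℝ) ^ j * (-(a : ℝ)) ≤ 3 ^ k * (-(N : ℝ)) := by exact_mod_cast h2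
  have haR : (1 : ℝ) ≤ -(a : ℝ) := by
    have : (1 : ℤ) ≤ -a := by omega
    exact_mod_cast this
  have h4 : (2 : ℝ) ^ j ≤ 3 ^ k * X := by
    calc (2 : ℝ) ^ j = 2 ^ j * 1 := (mul_one _).symm
      _ ≤ 2 ^ j * (-(a : ℝ)) := mul_le_mul_of_nonneg_left haR (by positivity)
      _ ≤ 3 ^ k * (-(N : ℝ)) := h3
      _ ≤ 3 ^ k * X := mul_le_mul_of_nonneg_left (by linarith) (by positivity)
  have h5 := Real.log_le_log (by positivity) h4
  rw [Real.log_mul (by positivity) hX.ne', Real.log_pow, Real.log_pow] at h5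
  have h6 := (KK_iff s X k).mp hc
  have h7 := KK_AA s X
  have hl2 : 0 < Real.log 2 := Real.log_pos (by norm_num)
  have hl3 : 0 < Real.log 3 := Real.log_pos (by norm_num)
  have h8 : (k : ℝ) * Real.log 3 ≤ KK s X * Real.log 3 := mul_le_mul_of_nonneg_right h6 hl3.le
  have h9 : (j : ℝ) * Real.log 2 ≤ AA s X * Real.log 2 := by linarith
  exact le_of_mul_le_mul_right h9 hl2

theorem down_le {a : ℤ} (ha : Odd a) (ha0 : a < 0) {s X : ℝ} (hX : 0 < X) (hlX : 0 < Real.log X) (hK : 0 ≤ KK s X)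
    (hev : Real.log (KK s X + 1) + Real.log (-(a : ℝ)) + Real.log (Real.log X) < Real.log 2 * Real.sqrt (Real.sqrt (Real.log X)))
    {N : ℤ} (ho : Odd N) (h0 : N < 0) (hN : X ≤ (-(N : ℝ)) * Real.log X) {j : ℕ}
    (hj : (j : ℝ) ≤ AA s X - Real.sqrt (Real.sqrt (Real.log X))) (hT : T^[j] N = a) :
    ∃ k : ℕ, syr^[k] N = a ∧ Cnd s X k := by
  obtain ⟨k, h1, h2⟩ := hit_down ha ha0 ho h0 hT
  refine ⟨k, h1, ?_⟩
  by_contra hc
  have h3 : KK s X < k := by
    by_contra h4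
    exact hc ((KK_iff s X k).mpr (not_lt.mp h4))
  have hNR : (0 : ℝ) < -(N : ℝ) := by
    have : (N : ℝ) < 0 := by exact_mod_cast h0
    linarith
  have haR : (0 : ℝ) < -(a : ℝ) := by
    have : (a : ℝ) < 0 := by exact_mod_cast ha0
    linarith
  have hk0 : (0 : ℝ) < (k : ℝ) + 1 := by positivity
  have h5 := Real.log_le_log (by positivity) h2
  rw [Real.log_mul (by positivity) hNR.ne', Real.log_mul hk0.ne' (by positivity), Real.log_mul (by positivity) haR.ne',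
    Real.log_pow, Real.log_pow] at h5
  have h6 := Real.log_le_log hX hN
  rw [Real.log_mul hNR.ne' hlX.ne'] at h6
  -- the logarithm of k + 1
  have hK1 : 0 < KK s X + 1 := by linarith
  have h7 : Real.log ((k : ℝ) + 1) - Real.log (KK s X + 1) ≤ k - KK s X := by
    rw [← Real.log_div hk0.ne' hK1.ne']
    have h8 := Real.log_le_sub_one_of_pos (div_pos hk0 hK1)
    have h9 : ((k : ℝ) + 1) / (KK s X + 1) - 1 = (k - KK s X) / (KK s X + 1) := by
      field_simp
      ring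
    have h10 : ((k : ℝ) - KK s X) / (KK s X + 1) ≤ k - KK s X := div_le_self (by linarith) (by linarith)
    linarith
  have h11 := KK_AA s X
  have h12 : ((k : ℝ) - KK s X) * 1 ≤ ((k : ℝ) - KK s X) * Real.log 3 :=
    mul_le_mul_of_nonneg_left log3_ge (by linarith)
  have hl2 : 0 < Real.log 2 := Real.log_pos (by norm_num)
  have h13 : (j : ℝ) * Real.log 2 ≤ (AA s X - Real.sqrt (Real.sqrt (Real.log X))) * Real.log 2 :=
    mul_le_mul_of_nonneg_right hj hl2.le
  nlinarith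

theorem cP_union {P Q : ℤ → Prop} {x y z : ℝ} {R : ℤ → Prop}
    (h : ∀ N : ℤ, N < 0 → Odd N → -x ≤ (N : ℝ) → P N → (-y ≤ (N : ℝ) ∧ Q N) ∨ (-z ≤ (N : ℝ) ∧ R N)) :
    cP P x ≤ cP Q y + cP R z := by
  unfold cP
  refine le_trans (Set.ncard_le_ncard ?_ ((cP_fin Q y).union (cP_fin R z))) (Set.ncard_union_le _ _)
  rintro N ⟨h1, h2, h3, h4⟩
  rcases h N h1 h2 h3 h4 with ⟨h5, h6⟩ | ⟨h5, h6⟩
  · left; exact ⟨h1, h2, h5, h6⟩
  · right; exact ⟨h1, h2, h5, h6⟩

/-- the normal law along the natural numbers -/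
theorem nat_lim {a : ℤ} (ha : Odd a) (ha0 : a < 0) {c : ℝ}
    (hc : ∀ (s : ℝ) (J : ℕ → ℕ), Tendsto J atTop atTop →
      Tendsto (fun X : ℕ => ((J X : ℝ) * Pool.Agent.Helper3.TD.mu - Real.log X) / (Real.log 3 / 2 * Real.sqrt (J X))) atTop (𝓝 s) →
      Tendsto (fun X : ℕ => Nc (FH a (J X)) X / X) atTop (𝓝 (c * gs s))) (s : ℝ) :
    Tendsto (fun X : ℕ => ((cP (fun N => ∃ k : ℕ, syr^[k] N = a ∧ Cnd s (X : ℝ) k) (X : ℝ) : ℕ) : ℝ) / X) atTop
      (𝓝 (c * gs s / 2)) := by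
  have h1 := odd_lim ha ha0 hc (Jp_lim s).1 (Jp_lim s).2
  have h2 := odd_lim ha ha0 hc (Jm_lim s).1 (Jm_lim s).2
  have h3 : Tendsto (fun X : ℕ => (Real.log X)⁻¹ + (X : ℝ)⁻¹) atTop (𝓝 (0 + 0)) :=
    (tendsto_inv_atTop_zero.comp (Real.tendsto_log_atTop.comp tendsto_natCast_atTop_atTop)).add
      (tendsto_inv_atTop_zero.comp tendsto_natCast_atTop_atTop)
  have h4 := h2.sub h3
  rw [add_zero, sub_zero] at h4
  refine tendsto_of_tendsto_of_tendsto_of_le_of_le' h4 h1 ?_ ?_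
  · filter_upwards [ev_X s (Real.log (-(a : ℝ))), (AA_top s).eventually_ge_atTop 0, eventually_ge_atTop 1] with X hX hA hX1
    obtain ⟨e1, e2, e3⟩ := hX
    have hXR : (0 : ℝ) < X := by exact_mod_cast hX1
    have h5 : cP (fun N => ∃ i : ℕ, i ≤ ⌊AA s X - Real.sqrt (Real.sqrt (Real.log X))⌋₊ ∧ T^[i] N = a) (X : ℝ) ≤
        cP (fun N => ∃ k : ℕ, syr^[k] N = a ∧ Cnd s (X : ℝ) k) (X : ℝ) + cP (fun _ => True) ((X : ℝ) / Real.log X) := by
      apply cP_union
      rintro N b1 b2 b3 ⟨i, b4, b5⟩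
      by_cases hc' : (X : ℝ) ≤ (-(N : ℝ)) * Real.log X
      · left
        refine ⟨b3, down_le ha ha0 hXR e1 e2 e3 b2 b1 hc' ?_ b5⟩
        exact (Nat.le_floor_iff hA).mp b4
      · right
        refine ⟨?_, trivial⟩
        have h6 : (-(N : ℝ)) ≤ X / Real.log X := by
          rw [le_div_iff₀ e1]
          exact (not_le.mp hc').le
        linarith
    have h6 : (cP (fun _ => True) ((X : ℝ) / Real.log X) : ℝ) ≤ X / Real.log X + 1 := cP_small _ (div_pos hXR e1).le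
    have h7 : ((cP (fun N => ∃ i : ℕ, i ≤ ⌊AA s X - Real.sqrt (Real.sqrt (Real.log X))⌋₊ ∧ T^[i] N = a) (X : ℝ) : ℕ) : ℝ) ≤
        ((cP (fun N => ∃ k : ℕ, syr^[k] N = a ∧ Cnd s (X : ℝ) k) (X : ℝ) : ℕ) : ℝ) + (cP (fun _ => True) ((X : ℝ) / Real.log X) : ℝ) := by
      exact_mod_cast h5
    have h8 : (Real.log X)⁻¹ + (X : ℝ)⁻¹ = (X / Real.log X + 1) / X := by
      field_simp
    rw [h8, ← sub_div]
    apply div_le_div_of_nonneg_right _ hXR.le
    linarith
  · filter_upwards [eventually_ge_atTop 1] with X hX1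
    have hXR : (0 : ℝ) < X := by exact_mod_cast hX1
    apply div_le_div_of_nonneg_right _ hXR.le
    have h5 : cP (fun N => ∃ k : ℕ, syr^[k] N = a ∧ Cnd s (X : ℝ) k) (X : ℝ) ≤
        cP (fun N => ∃ i : ℕ, i ≤ ⌊AA s X⌋₊ ∧ T^[i] N = a) (X : ℝ) := by
      apply cP_mono
      rintro N b1 b2 b3 ⟨k, b4, b5⟩
      exact ⟨b3, up_le ha0 hXR b2 b1 b3 b4 b5⟩
    exact_mod_cast h5

/-- from the natural numbers to the reals -/
theorem real_lim {G : ℝ → ℝ} {L : ℝ} (h : Tendsto (fun X : ℕ => G X / X) atTop (𝓝 L))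
    (hG : ∀ᶠ x : ℝ in atTop, G (⌊x⌋₊ : ℕ) ≤ G x ∧ G x ≤ G ((⌊x⌋₊ + 1 : ℕ) : ℝ)) :
    Tendsto (fun x : ℝ => G x / x) atTop (𝓝 L) := by
  have hf := tendsto_nat_floor_atTop (α := ℝ)
  have hr : Tendsto (fun x : ℝ => ((⌊x⌋₊ : ℕ) : ℝ) / x) atTop (𝓝 1) := tendsto_nat_floor_div_atTop
  have hr1 : Tendsto (fun x : ℝ => ((⌊x⌋₊ + 1 : ℕ) : ℝ) / x) atTop (𝓝 1) := by
    have h1 := hr.add (tendsto_inv_atTop_zero (𝕜 := ℝ))
    rw [add_zero] at h1
    refine h1.congr (fun x => ?_)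
    push_cast
    rw [add_div, one_div]
  have h1 := (h.comp hf).mul hr
  have h2 := ((h.comp (tendsto_add_atTop_nat 1)).comp hf).mul hr1
  rw [mul_one] at h1 h2
  refine tendsto_of_tendsto_of_tendsto_of_le_of_le' h1 h2 ?_ ?_
  · filter_upwards [hG, eventually_ge_atTop 1] with x hx hx1
    have h3 : (0 : ℝ) < (⌊x⌋₊ : ℕ) := by
      have : 1 ≤ ⌊x⌋₊ := Nat.le_floor (by exact_mod_cast hx1)
      exact_mod_cast this
    have h4 : (0 : ℝ) < x := by linarith
    simp only [Function.comp]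
    rw [div_mul_div_cancel₀ h3.ne']
    exact div_le_div_of_nonneg_right hx.1 h4.le
  · filter_upwards [hG, eventually_ge_atTop 1] with x hx hx1
    have h3 : (0 : ℝ) < ((⌊x⌋₊ + 1 : ℕ) : ℝ) := by positivity
    have h4 : (0 : ℝ) < x := by linarith
    simp only [Function.comp]
    rw [div_mul_div_cancel₀ h3.ne']
    exact div_le_div_of_nonneg_right hx.2 h4.le

theorem Cnd_mono {s t1 t2 : ℝ} (h1 : 1 ≤ t1) (h12 : t1 ≤ t2)
    (h : |s| * (Real.log 2 * Real.sqrt 2) ≤ Real.sqrt DD * Real.sqrt (Real.log t1)) {k : ℕ} (hc : Cnd s t1 k) : Cnd s t2 k := by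
  unfold Cnd at hc ⊢
  rw [Real.sqrt_mul (by norm_num : (0 : ℝ) ≤ 2)] at hc ⊢
  have hl1 : 0 ≤ Real.log t1 := Real.log_nonneg h1
  have hl12 : Real.log t1 ≤ Real.log t2 := Real.log_le_log (by linarith) h12
  have e1 : Real.sqrt (Real.log t1) * Real.sqrt (Real.log t1) = Real.log t1 := Real.mul_self_sqrt hl1
  have e2 : Real.sqrt (Real.log t2) * Real.sqrt (Real.log t2) = Real.log t2 := Real.mul_self_sqrt (hl1.trans hl12)
  have e3 : Real.sqrt (Real.log t1) ≤ Real.sqrt (Real.log t2) := Real.sqrt_le_sqrt hl12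
  have e4 := Real.sqrt_nonneg (Real.log t1)
  have e5 := Real.sqrt_nonneg DD
  have e6 : 0 ≤ Real.log 2 * Real.sqrt 2 := by
    have := Real.log_pos (show (1 : ℝ) < 2 by norm_num)
    positivity
  have e7 : -(Real.sqrt DD * Real.sqrt (Real.log t1)) ≤ s * (Real.log 2 * Real.sqrt 2) := by
    have := neg_abs_le s
    nlinarith
  have e8 : 0 ≤ (Real.sqrt (Real.log t2) - Real.sqrt (Real.log t1)) *
      (Real.sqrt DD * (Real.sqrt (Real.log t1) + Real.sqrt (Real.log t2)) + s * (Real.log 2 * Real.sqrt 2)) := by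
    apply mul_nonneg (by linarith)
    nlinarith [mul_nonneg e5 (e4.trans e3)]
  have e9 : ((k : ℝ) * DD - Real.log t2) * Real.sqrt DD = ((k : ℝ) * DD - Real.log t1) * Real.sqrt DD -
      (Real.sqrt (Real.log t2) * Real.sqrt (Real.log t2) - Real.sqrt (Real.log t1) * Real.sqrt (Real.log t1)) * Real.sqrt DD := by
    rw [e1, e2]; ring
  rw [e9]
  nlinarith

theorem fin (hTT : ST_TT) : ST_FIN := by
  intro a ha0 ha
  obtain ⟨c, hc0, hc1, hc⟩ := hTT a ha0.ne
  refine ⟨c / 2, ?_, fun s => ?_⟩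
  · have h1 : Tendsto (fun X : ℕ => (Nc (FI a) X - Nc (FI a) (X / 2)) / X) atTop (𝓝 (c / 2)) :=
      lim_half hc1 (hc1.comp (Nat.tendsto_div_const_atTop (by norm_num)))
    have h2 : Tendsto (fun x : ℝ => ((cP (fun N => ∃ k : ℕ, syr^[k] N = a) x : ℕ) : ℝ) / x) atTop (𝓝 (c / 2)) := by
      apply real_lim (G := fun x => ((cP (fun N => ∃ k : ℕ, syr^[k] N = a) x : ℕ) : ℝ))
      · refine h1.congr (fun X => ?_)
        rw [← cnt_FI ha ha0]
        congr 2
        apply le_antisymm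
        · apply cP_mono
          rintro N b1 b2 b3 ⟨i, b4⟩
          obtain ⟨k, b5, _⟩ := hit_down ha ha0 b2 b1 b4
          exact ⟨b3, k, b5⟩
        · apply cP_mono
          rintro N b1 b2 b3 ⟨k, b4⟩
          obtain ⟨j, b5, _⟩ := hit_up b2 b1 k
          exact ⟨b3, j, by rw [b5, b4]⟩
      · filter_upwards [eventually_ge_atTop 1] with x hx
        have h3 := Nat.floor_le (show 0 ≤ x by linarith)
        have h4 := Nat.lt_floor_add_one x
        constructor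
        · exact_mod_cast cP_mono (fun N _ _ b3 b4 => ⟨by linarith, b4⟩)
        · exact_mod_cast cP_mono (fun N _ _ b3 b4 => ⟨by push_cast; linarith, b4⟩)
    exact h2
  · have h2 : Tendsto (fun x : ℝ => ((cP (fun N => ∃ k : ℕ, syr^[k] N = a ∧ Cnd s x k) x : ℕ) : ℝ) / x) atTop (𝓝 (c / 2 * gs s)) := by
      apply real_lim (G := fun x => ((cP (fun N => ∃ k : ℕ, syr^[k] N = a ∧ Cnd s x k) x : ℕ) : ℝ))
      · have h3 := nat_lim ha ha0 hc s
        rw [show c / 2 * gs s = c * gs s / 2 by ring]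
        exact h3
      · have h5 : Tendsto (fun x : ℝ => Real.sqrt DD * Real.sqrt (Real.log ((⌊x⌋₊ : ℕ) : ℝ))) atTop atTop :=
          (r_top.comp (tendsto_nat_floor_atTop (α := ℝ))).const_mul_atTop (Real.sqrt_pos.mpr DD_pos)
        filter_upwards [eventually_ge_atTop 1, h5.eventually_ge_atTop (|s| * (Real.log 2 * Real.sqrt 2))] with x hx hx2
        have h3 := Nat.floor_le (show 0 ≤ x by linarith)
        have h4 := Nat.lt_floor_add_one x
        have h6 : (1 : ℝ) ≤ ((⌊x⌋₊ : ℕ) : ℝ) := by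
          have : 1 ≤ ⌊x⌋₊ := Nat.le_floor (by exact_mod_cast hx)
          exact_mod_cast this
        constructor
        · exact_mod_cast cP_mono (fun N _ _ b3 b4 => by
            obtain ⟨k, b5, b6⟩ := b4
            exact ⟨by linarith, k, b5, Cnd_mono h6 h3 hx2 b6⟩)
        · exact_mod_cast cP_mono (fun N _ _ b3 b4 => by
            obtain ⟨k, b5, b6⟩ := b4
            refine ⟨by push_cast; linarith, k, b5, Cnd_mono hx (by push_cast; linarith) ?_ b6⟩
            refine hx2.trans (mul_le_mul_of_nonneg_left (Real.sqrt_le_sqrt (Real.log_le_log (by linarith) h3)) (Real.sqrt_nonneg _)))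
    exact h2

end Pool.Agent.Helper32.HT
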