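import Pool.Agent.Helper3.TD.Cls

/-! Hitting times: the number of Syracuse steps and the number of `T` steps. -/

namespace Pool.Agent.Helper32.HT

open Pool.Agent.Helper3.ND Pool.Agent.Helper3.TD

theorem iter_odd {N : ℤ} (ho : Odd N) (k : ℕ) : Odd (syr^[k] N) := by
  induction k with
  | zero => exact ho
  | succ k ih =>
    rw [Function.iterate_succ_apply']
    exact (syr_spec ih).choose_spec.2

theorem iter_neg {N : ℤ} (ho : Odd N) (h0 : N < 0) (k : ℕ) : syr^[k] N < 0 := by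
  induction k with
  | zero => exact h0
  | succ k ih =>
    rw [Function.iterate_succ_apply']
    exact syr_neg ih (iter_odd ho k)

theorem T_step {N : ℤ} (ho : Odd N) {v : ℕ} (hv : 3 * N + 1 = 2 ^ (v + 1) * syr N) (u : ℕ) (hu : u ≤ v) :
    T^[u + 1] N = 2 ^ (v - u) * syr N := by
  induction u with
  | zero =>
    have h1 := T_odd (Int.odd_iff.mp ho)
    rw [hv, pow_succ] at h1
    simp only [zero_add, Function.iterate_one, Nat.sub_zero]
    linarith
  | succ u ih =>
    rw [Function.iterate_succ_apply', ih (by omega)]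
    obtain ⟨w, hw⟩ : ∃ w, v - u = w + 1 := ⟨v - u - 1, by omega⟩
    have hw2 : v - (u + 1) = w := by omega
    rw [hw, hw2]
    have h1 : (2 ^ (w + 1) * syr N) % 2 = 0 := by
      rw [pow_succ, mul_assoc, mul_comm (2 ^ w) _, mul_assoc]
      exact Int.mul_emod_right _ _
    have h2 := T_even h1
    rw [pow_succ] at h2
    rw [pow_succ]
    linarith

theorem hit_up {N : ℤ} (ho : Odd N) (h0 : N < 0) (k : ℕ) :
    ∃ j : ℕ, T^[j] N = syr^[k] N ∧ 2 ^ j * (-(syr^[k] N)) ≤ 3 ^ k * (-N) := by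
  induction k with
  | zero => exact ⟨0, rfl, by simp⟩
  | succ k ih =>
    obtain ⟨j, h1, h2⟩ := ih
    have hM := iter_odd ho k
    obtain ⟨v, hv, _⟩ := syr_spec hM
    have h3 := T_step hM hv v le_rfl
    rw [Nat.sub_self, pow_zero, one_mul] at h3
    refine ⟨v + 1 + j, ?_, ?_⟩
    · rw [Function.iterate_add_apply, h1, h3, Function.iterate_succ_apply']
    · rw [Function.iterate_succ_apply']
      have h4 : (2 : ℤ) ^ (v + 1 + j) * (-(syr (syr^[k] N))) = 2 ^ j * (-(3 * (syr^[k] N) + 1)) := by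
        rw [hv, pow_add]; ring
      have h5 : (2 : ℤ) ^ j * (-(3 * (syr^[k] N) + 1)) ≤ 2 ^ j * (3 * (-(syr^[k] N))) := by
        apply mul_le_mul_of_nonneg_left _ (by positivity)
        linarith
      rw [h4]
      calc (2 : ℤ) ^ j * (-(3 * (syr^[k] N) + 1)) ≤ 2 ^ j * (3 * (-(syr^[k] N))) := h5
        _ = 3 * (2 ^ j * (-(syr^[k] N))) := by ring
        _ ≤ 3 * (3 ^ k * (-N)) := by linarith
        _ = 3 ^ (k + 1) * (-N) := by ring

theorem hit_down1 {a : ℤ} (ha : Odd a) (ha0 : a < 0) (j : ℕ) : ∀ N : ℤ, Odd N → N < 0 → T^[j] N = a →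
    ∃ k : ℕ, syr^[k] N = a ∧ (∀ i < k, syr^[i] N ≠ a) ∧
      (-(N : ℝ)) * ∏ i ∈ Finset.range k, (3 - 1 / (-((syr^[i] N : ℤ) : ℝ))) ≤ 2 ^ j * (-(a : ℝ)) := by
  induction j using Nat.strong_induction_on with
  | _ j IH =>
    intro N ho h0 hT
    have haR : (0 : ℝ) < -(a : ℝ) := by
      have : (a : ℝ) < 0 := by exact_mod_cast ha0
      linarith
    by_cases hNa : N = a
    · refine ⟨0, hNa, fun i hi => absurd hi (Nat.not_lt_zero i), ?_⟩
      rw [Finset.range_zero, Finset.prod_empty, mul_one, hNa]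
      have h1 : (1 : ℝ) ≤ 2 ^ j := one_le_pow₀ (by norm_num)
      nlinarith
    · obtain ⟨v, hv, ho'⟩ := syr_spec ho
      have hj : v + 1 ≤ j := by
        by_contra hc
        rcases Nat.eq_zero_or_pos j with h | h
        · rw [h] at hT; exact hNa hT
        · obtain ⟨u, rfl⟩ := Nat.exists_eq_succ_of_ne_zero h.ne'
          have hu : u < v := by omega
          have h1 := T_step ho hv u hu.le
          rw [Nat.succ_eq_add_one, h1] at hT
          obtain ⟨w, hw⟩ : ∃ w, v - u = w + 1 := ⟨v - u - 1, by omega⟩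
          rw [hw, pow_succ] at hT
          apply (Int.not_even_iff_odd.mpr ha)
          rw [← hT]
          exact ⟨2 ^ w * syr N, by ring⟩
      obtain ⟨j', rfl⟩ := Nat.exists_eq_add_of_le hj
      have h3 := T_step ho hv v le_rfl
      rw [Nat.sub_self, pow_zero, one_mul] at h3
      have h4 : T^[j'] (syr N) = a := by
        rw [← h3, ← Function.iterate_add_apply, add_comm j' (v + 1)]; exact hT
      obtain ⟨k, hk1, hk2, hk3⟩ := IH j' (by omega) (syr N) ho' (syr_neg h0 ho) h4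
      refine ⟨k + 1, ?_, ?_, ?_⟩
      · rw [Function.iterate_succ_apply]; exact hk1
      · intro i hi
        rcases Nat.eq_zero_or_pos i with h | h
        · rw [h]; exact hNa
        · obtain ⟨i', rfl⟩ := Nat.exists_eq_succ_of_ne_zero h.ne'
          rw [Nat.succ_eq_add_one, Function.iterate_succ_apply]
          exact hk2 i' (by omega)
      · rw [Finset.prod_range_succ']
        simp only [Function.iterate_succ_apply, Function.iterate_zero, id_eq]
        have hNR : (N : ℝ) ≠ 0 := by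
          have : (N : ℝ) < 0 := by exact_mod_cast h0
          exact this.ne
        have h5 : (-(N : ℝ)) * (3 - 1 / (-(N : ℝ))) = 2 ^ (v + 1) * (-((syr N : ℤ) : ℝ)) := by
          have h6 : (3 : ℝ) * N + 1 = 2 ^ (v + 1) * ((syr N : ℤ) : ℝ) := by exact_mod_cast hv
          field_simp
          linarith
        calc (-(N : ℝ)) * ((∏ i ∈ Finset.range k, (3 - 1 / (-((syr^[i] (syr N) : ℤ) : ℝ)))) * (3 - 1 / (-(N : ℝ))))
            = 2 ^ (v + 1) * ((-((syr N : ℤ) : ℝ)) * ∏ i ∈ Finset.range k, (3 - 1 / (-((syr^[i] (syr N) : ℤ) : ℝ)))) := by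
              rw [mul_comm (∏ i ∈ Finset.range k, (3 - 1 / (-((syr^[i] (syr N) : ℤ) : ℝ)))) _, ← mul_assoc, h5]; ring
          _ ≤ 2 ^ (v + 1) * (2 ^ j' * (-(a : ℝ))) := mul_le_mul_of_nonneg_left hk3 (by positivity)
          _ = 2 ^ (v + 1 + j') * (-(a : ℝ)) := by rw [pow_add]; ring

theorem prod_fin (k : ℕ) : ∀ A : Finset ℕ, A.card = k → (∀ m ∈ A, 1 ≤ m) →
    1 / ((k : ℝ) + 1) ≤ ∏ m ∈ A, ((m : ℝ) / (m + 1)) := by
  induction k with
  | zero =>
    intro A hA _
    rw [Finset.card_eq_zero.mp hA]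
    simp
  | succ k ih =>
    intro A hA h1
    have hne : A.Nonempty := by
      rw [← Finset.card_pos, hA]; omega
    set M := A.max' hne with hM
    have hMA : M ∈ A := A.max'_mem hne
    have hMk : k + 1 ≤ M := by
      have h2 : A ⊆ Finset.Icc 1 M := by
        intro m hm
        rw [Finset.mem_Icc]
        exact ⟨h1 m hm, A.le_max' m hm⟩
      have h3 := Finset.card_le_card h2
      rw [hA, Nat.card_Icc] at h3
      omega
    rw [← Finset.mul_prod_erase A _ hMA]
    have h4 := ih (A.erase M) (by rw [Finset.card_erase_of_mem hMA, hA]; rfl)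
      (fun m hm => h1 m (Finset.mem_of_mem_erase hm))
    have hMR : ((k : ℝ) + 1) ≤ M := by exact_mod_cast hMk
    have hk0 : (0 : ℝ) ≤ k := Nat.cast_nonneg k
    have h5 : ((k : ℝ) + 1) / (k + 2) ≤ (M : ℝ) / (M + 1) := by
      rw [div_le_div_iff₀ (by positivity) (by positivity)]
      nlinarith
    have h6 : (1 : ℝ) / (((k + 1 : ℕ) : ℝ) + 1) = ((k : ℝ) + 1) / (k + 2) * (1 / ((k : ℝ) + 1)) := by
      push_cast
      field_simp
      ring
    rw [h6]
    exact mul_le_mul h5 h4 (by positivity) (by positivity)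

theorem hit_down {a : ℤ} (ha : Odd a) (ha0 : a < 0) {N : ℤ} (ho : Odd N) (h0 : N < 0) {j : ℕ} (hT : T^[j] N = a) :
    ∃ k : ℕ, syr^[k] N = a ∧ (3 : ℝ) ^ k * (-(N : ℝ)) ≤ (k + 1) * (2 ^ j * (-(a : ℝ))) := by
  classical
  obtain ⟨k, hk1, hk2, hk3⟩ := hit_down1 ha ha0 j N ho h0 hT
  refine ⟨k, hk1, ?_⟩
  have hNR : (0 : ℝ) < -(N : ℝ) := by
    have : (N : ℝ) < 0 := by exact_mod_cast h0
    linarith
  -- distinct elements
  have hinj : Set.InjOn (fun i => (-(syr^[i] N)).toNat) (Finset.range k : Set ℕ) := by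
    have key : ∀ i i' : ℕ, i < i' → i' < k → (-(syr^[i] N)).toNat ≠ (-(syr^[i'] N)).toNat := by
      intro i i' h1 h2 h3
      have n1 := iter_neg ho h0 i
      have n2 := iter_neg ho h0 i'
      have h4 : syr^[i] N = syr^[i'] N := by omega
      have h5 : syr^[k - i' + i] N = a := by
        rw [Function.iterate_add_apply, h4, ← Function.iterate_add_apply, Nat.sub_add_cancel h2.le, hk1]
      exact hk2 _ (by omega) h5
    intro i hi i' hi' h
    rw [Finset.coe_range, Set.mem_Iio] at hi hi'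
    rcases lt_trichotomy i i' with h1 | h1 | h1
    · exact absurd h (key i i' h1 hi')
    · exact h1
    · exact absurd h.symm (key i' i h1 hi)
  have hcast : ∀ i, (((-(syr^[i] N)).toNat : ℕ) : ℝ) = -((syr^[i] N : ℤ) : ℝ) := by
    intro i
    have n1 := iter_neg ho h0 i
    have : (((-(syr^[i] N)).toNat : ℕ) : ℤ) = -(syr^[i] N) := Int.toNat_of_nonneg (by omega)
    exact_mod_cast congrArg (Int.cast : ℤ → ℝ) this
  have hpos : ∀ i, 1 ≤ (-(syr^[i] N)).toNat := by
    intro i
    have n1 := iter_neg ho h0 i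
    omega
  have hprod : ∏ m ∈ (Finset.range k).image (fun i => (-(syr^[i] N)).toNat), ((m : ℝ) / (m + 1)) =
      ∏ i ∈ Finset.range k, ((((-(syr^[i] N)).toNat : ℕ) : ℝ) / ((((-(syr^[i] N)).toNat : ℕ) : ℝ) + 1)) :=
    Finset.prod_image hinj
  have hpf := prod_fin k ((Finset.range k).image (fun i => (-(syr^[i] N)).toNat))
    (by rw [Finset.card_image_of_injOn hinj, Finset.card_range])
    (by
      intro m hm
      rw [Finset.mem_image] at hm
      obtain ⟨i, _, rfl⟩ := hm
      exact hpos i)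
  rw [hprod] at hpf
  have h7 : (3 : ℝ) ^ k * (1 / ((k : ℝ) + 1)) ≤ ∏ i ∈ Finset.range k, (3 - 1 / (-((syr^[i] N : ℤ) : ℝ))) := by
    calc (3 : ℝ) ^ k * (1 / ((k : ℝ) + 1))
        ≤ 3 ^ k * ∏ i ∈ Finset.range k, ((((-(syr^[i] N)).toNat : ℕ) : ℝ) / ((((-(syr^[i] N)).toNat : ℕ) : ℝ) + 1)) :=
          mul_le_mul_of_nonneg_left hpf (by positivity)
      _ = ∏ i ∈ Finset.range k, (3 * ((((-(syr^[i] N)).toNat : ℕ) : ℝ) / ((((-(syr^[i] N)).toNat : ℕ) : ℝ) + 1))) := by
          rw [Finset.prod_mul_distrib, Finset.prod_const, Finset.card_range]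
      _ ≤ _ := by
          apply Finset.prod_le_prod
          · intro i _; positivity
          · intro i _
            rw [← hcast i]
            have h8 : (1 : ℝ) ≤ (((-(syr^[i] N)).toNat : ℕ) : ℝ) := by exact_mod_cast hpos i
            set m : ℝ := (((-(syr^[i] N)).toNat : ℕ) : ℝ)
            have h9 : 3 - 1 / m - 3 * (m / (m + 1)) = (2 * m - 1) / (m * (m + 1)) := by
              field_simp
              ring
            have h10 : 0 ≤ (2 * m - 1) / (m * (m + 1)) := by
              apply div_nonneg <;> nlinarith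
            linarith
  have h8 : (-(N : ℝ)) * (3 ^ k * (1 / ((k : ℝ) + 1))) ≤ 2 ^ j * (-(a : ℝ)) :=
    le_trans (mul_le_mul_of_nonneg_left h7 hNR.le) hk3
  have hk1' : (0 : ℝ) < (k : ℝ) + 1 := by positivity
  calc (3 : ℝ) ^ k * (-(N : ℝ)) = (k + 1) * ((-(N : ℝ)) * (3 ^ k * (1 / ((k : ℝ) + 1)))) := by
        field_simp
    _ ≤ (k + 1) * (2 ^ j * (-(a : ℝ))) := mul_le_mul_of_nonneg_left h8 hk1'.le

end Pool.Agent.Helper32.HT
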